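import Mathlib
import Pool.Agent.W455.EM.Stm

/-!
# EM-ASY
-/

set_option autoImplicit false

namespace Pool.Agent.W348.EM

open Finset Filter Topology Pool.Agent.W455.EM

theorem bin2 (x : ℝ) (hx : 0 ≤ x) (n : ℕ) :
    1 + n * x + (n : ℝ) * (n - 1) / 2 * x ^ 2 ≤ (1 + x) ^ n := by
  induction n with
  | zero => simp
  | succ n ih =>
    rw [pow_succ]
    have hn : (0 : ℝ) ≤ (n : ℝ) * (n - 1) / 2 := by
      rcases n with _ | n
      · simp
      · push_cast
        have : (0 : ℝ) ≤ n := Nat.cast_nonneg n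
        have h2 : ((n : ℝ) + 1) * (n + 1 - 1) / 2 = (n + 1) * n / 2 := by ring
        rw [h2]
        positivity
    have h1 : (1 + n * x + (n : ℝ) * (n - 1) / 2 * x ^ 2) * (1 + x) ≤ (1 + x) ^ n * (1 + x) :=
      mul_le_mul_of_nonneg_right ih (by linarith)
    refine le_trans ?_ h1
    push_cast
    have h3 : 0 ≤ (n : ℝ) * (n - 1) / 2 * x ^ 3 := mul_nonneg hn (by positivity)
    nlinarith [h3]

theorem half (k : ℕ) (hk : 3 ≤ k) : (1 - 1 / (k : ℝ)) ^ (k - 1) ≤ 4 / 9 := by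
  obtain ⟨n, rfl⟩ : ∃ n, k = n + 1 := ⟨k - 1, by omega⟩
  have hn : 2 ≤ n := by omega
  rw [Nat.add_sub_cancel]
  have hn0 : (0 : ℝ) < n := by
    have : 0 < n := by omega
    exact_mod_cast this
  have hn2 : (2 : ℝ) ≤ n := by exact_mod_cast hn
  have h1 : (1 : ℝ) - 1 / ((n + 1 : ℕ) : ℝ) = (1 + 1 / (n : ℝ))⁻¹ := by
    push_cast
    field_simp
    ring
  rw [h1, inv_pow]
  have h2 : (9 / 4 : ℝ) ≤ (1 + 1 / (n : ℝ)) ^ n := by
    refine le_trans ?_ (bin2 (1 / (n : ℝ)) (by positivity) n)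
    have h3 : (1 : ℝ) + n * (1 / n) + (n : ℝ) * (n - 1) / 2 * (1 / n) ^ 2 =
        2 + (n - 1) / (2 * n) := by
      field_simp
      ring
    rw [h3]
    have h4 : (1 / 4 : ℝ) ≤ (n - 1) / (2 * n) := by
      rw [le_div_iff₀ (by positivity)]
      linarith
    linarith
  calc ((1 + 1 / (n : ℝ)) ^ n)⁻¹ ≤ (9 / 4 : ℝ)⁻¹ := inv_anti₀ (by norm_num) h2
    _ = 4 / 9 := by norm_num

theorem main : S_ASY := by
  intro k hk ε hε
  obtain ⟨j, rfl⟩ : ∃ j, k = j + 1 := ⟨k - 1, by omega⟩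
  have hj : 1 ≤ j := by omega
  simp only [Nat.add_sub_cancel]
  set c : ℝ := 1 - 1 / ((j + 1 : ℕ) : ℝ) with hc
  have hc0 : 0 ≤ c := by
    have : 1 / ((j + 1 : ℕ) : ℝ) ≤ 1 := by
      rw [div_le_one (by positivity)]
      push_cast
      have : (0 : ℝ) ≤ j := Nat.cast_nonneg j
      linarith
    rw [hc]
    linarith
  have hlim : Tendsto (fun n : ℕ => ((1 + c * (n : ℝ)) / (-(j : ℝ) + 1 * (n : ℝ))) ^ j) atTop
      (𝓝 (c ^ j)) := by
    have h1 := tendsto_add_mul_div_add_mul_atTop_nhds (𝕜 := ℝ) 1 (-(j : ℝ)) c (d := 1) one_ne_zero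
    rw [div_one] at h1
    exact h1.pow j
  have hev : ∀ᶠ n : ℕ in atTop, ((1 + c * (n : ℝ)) / (-(j : ℝ) + 1 * (n : ℝ))) ^ j < c ^ j + ε :=
    hlim.eventually_lt_const (by linarith)
  obtain ⟨n1, hn1⟩ := eventually_atTop.1 hev
  refine ⟨max n1 (j + 2), fun n hn => ?_⟩
  have hn1' : n1 ≤ n := le_trans (le_max_left _ _) hn
  have hn2 : j + 2 ≤ n := le_trans (le_max_right _ _) hn
  have hnj : (0 : ℝ) < (n : ℝ) - j := by
    have : (j : ℝ) + 2 ≤ n := by exact_mod_cast hn2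
    linarith
  have hlt := hn1 n hn1'
  have hfac : (0 : ℝ) < (j.factorial : ℝ) := by exact_mod_cast Nat.factorial_pos j
  -- upper bound
  have h1 : (((n - n / (j + 1)).choose j : ℕ) : ℝ) * (j.factorial : ℝ) ≤ (1 + c * n) ^ j := by
    have h2 : (n - n / (j + 1)).choose j * j.factorial ≤ (n - n / (j + 1)) ^ j := by
      rw [mul_comm, ← Nat.descFactorial_eq_factorial_mul_choose]
      exact Nat.descFactorial_le_pow _ _
    have h3 : ((n - n / (j + 1) : ℕ) : ℝ) ≤ 1 + c * n := by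
      rw [Nat.cast_sub (Nat.div_le_self _ _)]
      have h4 : (n : ℝ) / ((j + 1 : ℕ) : ℝ) < ((n / (j + 1) : ℕ) : ℝ) + 1 := by
        rw [div_lt_iff₀ (by positivity)]
        have h5 := Nat.lt_mul_div_succ n (Nat.succ_pos j)
        have h6 : n < (n / (j + 1) + 1) * (j + 1) := by
          calc n < (j + 1) * (n / (j + 1) + 1) := h5
            _ = (n / (j + 1) + 1) * (j + 1) := by ring
        exact_mod_cast h6
      have h7 : c * n = n - (n : ℝ) / ((j + 1 : ℕ) : ℝ) := by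
        rw [hc]
        ring
      rw [h7]
      linarith
    calc (((n - n / (j + 1)).choose j : ℕ) : ℝ) * (j.factorial : ℝ)
        ≤ ((n - n / (j + 1) : ℕ) : ℝ) ^ j := by exact_mod_cast h2
      _ ≤ (1 + c * n) ^ j := pow_le_pow_left₀ (Nat.cast_nonneg _) h3 j
  -- lower bound
  have h8 : ((n : ℝ) - j) ^ j ≤ (((n - 1).choose j : ℕ) : ℝ) * (j.factorial : ℝ) := by
    have h9 : (n - j) ^ j ≤ (n - 1).choose j * j.factorial := by
      rw [mul_comm, ← Nat.descFactorial_eq_factorial_mul_choose]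
      have := Nat.pow_sub_le_descFactorial (n - 1) j
      have h10 : n - 1 + 1 - j = n - j := by omega
      rwa [h10] at this
    have h11 : ((n : ℝ) - j) = ((n - j : ℕ) : ℝ) := by
      rw [Nat.cast_sub (by omega)]
    rw [h11]
    exact_mod_cast h9
  have h12 : (1 + c * n) ^ j ≤ (c ^ j + ε) * ((n : ℝ) - j) ^ j := by
    have h13 : ((1 + c * (n : ℝ)) / ((n : ℝ) - j)) ^ j ≤ c ^ j + ε := by
      have h14 : -(j : ℝ) + 1 * (n : ℝ) = (n : ℝ) - j := by ring
      rw [h14] at hlt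
      exact hlt.le
    rw [div_pow, div_le_iff₀ (by positivity)] at h13
    exact h13
  have h15 : (((n - n / (j + 1)).choose j : ℕ) : ℝ) * (j.factorial : ℝ) ≤
      ((c ^ j + ε) * (((n - 1).choose j : ℕ) : ℝ)) * (j.factorial : ℝ) := by
    calc (((n - n / (j + 1)).choose j : ℕ) : ℝ) * (j.factorial : ℝ) ≤ (1 + c * n) ^ j := h1
      _ ≤ (c ^ j + ε) * ((n : ℝ) - j) ^ j := h12
      _ ≤ (c ^ j + ε) * ((((n - 1).choose j : ℕ) : ℝ) * (j.factorial : ℝ)) :=
          mul_le_mul_of_nonneg_left h8 (by positivity)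
      _ = _ := by ring
  exact le_of_mul_le_mul_right h15 hfac

end Pool.Agent.W348.EM
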